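import Mathlib

/-!
# The row inequality does not imply complete contractivity

Let `H` be the Hardy space of the unit ball of `ℂ²` (kernel `(1 - ⟨z,w⟩)⁻²`) and let `T₁`, `T₂` act
on `ℂ³` by `T_i v = v_0 e_i`. A row polynomial of multiplier norm at most `C` satisfies
`∑ |p_j(z)|² ≤ C²` on the ball, and slicing plus Parseval on circles gives `‖P(T)‖ ≤ C`. But the
column `(z₁, z₂)` is a contractive multiplier of `H`, while the column `(T₁, T₂)` has norm `√2`.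
-/

open Finset Filter Topology ComplexConjugate

namespace Pool.Agent.Results.MP_59d57e_an.RowInequalityFails

/-- The operator `p(T) = ∑_α c_α T_1^{α_1} ⋯ T_d^{α_d}` for a polynomial `p = ∑_α c_α z^α` and a tuple
`T` of bounded operators on `E`. -/
noncomputable def evalTuple {d : ℕ} {E : Type} [NormedAddCommGroup E] [InnerProductSpace ℂ E]
    (T : Fin d → E →L[ℂ] E) (p : MvPolynomial (Fin d) ℂ) : E →L[ℂ] E :=
  ∑ α ∈ p.support, p.coeff α • (List.ofFn fun i => T i ^ α i).prod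

lemma parseval_ineq {m : ℕ} (R : Fin m → Polynomial ℂ) (B : Polynomial ℂ) (C : ℝ)
    (h : ∀ z : ℂ, ‖z‖ = 1 → ∑ j, ‖(R j).eval z‖ ^ 2 ≤ C ^ 2 * ‖B.eval z‖ ^ 2) :
    ∑ j, (‖(R j).coeff 0‖ ^ 2 + ‖(R j).coeff 1‖ ^ 2) ≤ C ^ 2 * ∑ i ∈ B.support, ‖B.coeff i‖ ^ 2 := by
  have hint : ∀ p : Polynomial ℂ, CircleIntegrable (fun z => ‖p.eval z‖ ^ 2) 0 1 := by
    intro p
    apply ContinuousOn.circleIntegrable'
    exact (by fun_prop : Continuous fun z => ‖p.eval z‖ ^ 2).continuousOn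
  have h1 : ∀ j, ‖(R j).coeff 0‖ ^ 2 + ‖(R j).coeff 1‖ ^ 2 ≤ ∑ i ∈ (R j).support, ‖(R j).coeff i‖ ^ 2 := by
    intro j
    have h2 : ∑ i ∈ ({0, 1} : Finset ℕ), ‖(R j).coeff i‖ ^ 2 ≤ ∑ i ∈ ({0, 1} ∪ (R j).support : Finset ℕ), ‖(R j).coeff i‖ ^ 2 :=
      Finset.sum_le_sum_of_subset_of_nonneg Finset.subset_union_left (fun _ _ _ => by positivity)
    have h3 : ∑ i ∈ (R j).support, ‖(R j).coeff i‖ ^ 2 = ∑ i ∈ ({0, 1} ∪ (R j).support : Finset ℕ), ‖(R j).coeff i‖ ^ 2 := by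
      apply Finset.sum_subset Finset.subset_union_right
      intro i _ hi
      have : (R j).coeff i = 0 := by simpa [Polynomial.mem_support_iff] using hi
      rw [this]; simp
    rw [h3]
    rw [Finset.sum_pair (by norm_num)] at h2
    exact h2
  calc ∑ j, (‖(R j).coeff 0‖ ^ 2 + ‖(R j).coeff 1‖ ^ 2)
      ≤ ∑ j, ∑ i ∈ (R j).support, ‖(R j).coeff i‖ ^ 2 := Finset.sum_le_sum fun j _ => h1 j
    _ = ∑ j, Real.circleAverage (fun z => ‖(R j).eval z‖ ^ 2) 0 1 := by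
        apply Finset.sum_congr rfl; intro j _
        exact Polynomial.sum_sq_norm_coeff_eq_circleAverage (R j)
    _ = Real.circleAverage (∑ j, fun z => ‖(R j).eval z‖ ^ 2) 0 1 := by
        rw [Real.circleAverage_sum]
        intro j _; exact hint (R j)
    _ ≤ Real.circleAverage (fun z => C ^ 2 • ‖B.eval z‖ ^ 2) 0 1 := by
        apply Real.circleAverage_mono
        · exact CircleIntegrable.sum _ (fun j _ => hint (R j))
        · exact (hint B).const_smul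
        · intro z hz
          have hz1 : ‖z‖ = 1 := by simpa using hz
          simp only [Finset.sum_apply, smul_eq_mul]
          exact h z hz1
    _ = C ^ 2 * ∑ i ∈ B.support, ‖B.coeff i‖ ^ 2 := by
        rw [Real.circleAverage_fun_smul, ← Polynomial.sum_sq_norm_coeff_eq_circleAverage]
        rfl

abbrev P2 := MvPolynomial (Fin 2) ℂ

noncomputable def e (i : Fin 2) : Fin 2 →₀ ℕ := Finsupp.single i 1

/-- The slice `z ↦ p(z ζ)` of a polynomial. -/
noncomputable def slice (ζ : Fin 2 → ℂ) (p : P2) : Polynomial ℂ :=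
  MvPolynomial.aeval (fun i => Polynomial.C (ζ i) * Polynomial.X) p

lemma slice_eval (ζ : Fin 2 → ℂ) (p : P2) (z : ℂ) :
    (slice ζ p).eval z = MvPolynomial.eval (fun i => ζ i * z) p := by
  unfold slice
  rw [← Polynomial.coe_evalRingHom, ← MvPolynomial.coe_aeval_eq_eval]
  have : (Polynomial.evalRingHom z) (MvPolynomial.aeval (fun i => Polynomial.C (ζ i) * Polynomial.X) p)
      = (MvPolynomial.aeval (fun i => ζ i * z)) p := by
    rw [MvPolynomial.aeval_def, MvPolynomial.aeval_def, MvPolynomial.hom_eval₂]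
    congr 1
    · ext x; simp
    · funext i; simp
  rw [this]
  simp

lemma alpha_cases (α : Fin 2 →₀ ℕ) (h0 : α ≠ 0) (h1 : α ≠ e 0) (h2 : α ≠ e 1) : 2 ≤ α 0 + α 1 := by
  by_contra h
  have h3 : α 0 + α 1 ≤ 1 := by omega
  rcases Nat.eq_zero_or_pos (α 0) with ha | ha
  · rcases Nat.eq_zero_or_pos (α 1) with hb | hb
    · apply h0; ext i; fin_cases i <;> simp [ha, hb]
    · apply h2; ext i; fin_cases i <;> simp [e, ha]; omega
  · apply h1; ext i; fin_cases i <;> simp [e] <;> omega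

lemma slice_coeff_term (ζ : Fin 2 → ℂ) (c : ℂ) (α : Fin 2 →₀ ℕ) (n : ℕ) :
    (Polynomial.C c * ∏ i, (Polynomial.C (ζ i) * Polynomial.X) ^ α i).coeff n
      = if n = α 0 + α 1 then c * (ζ 0 ^ α 0 * ζ 1 ^ α 1) else 0 := by
  have : (Polynomial.C c * ∏ i, (Polynomial.C (ζ i) * Polynomial.X) ^ α i)
      = Polynomial.C (c * (ζ 0 ^ α 0 * ζ 1 ^ α 1)) * Polynomial.X ^ (α 0 + α 1) := by
    rw [Fin.prod_univ_two, mul_pow, mul_pow, pow_add]
    simp only [map_mul, map_pow]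
    ring
  rw [this, Polynomial.coeff_C_mul_X_pow]

lemma sum_three {M : Type*} [AddCommMonoid M] (p : P2) (F : (Fin 2 →₀ ℕ) → M)
    (h0 : ∀ α, p.coeff α = 0 → F α = 0) (h2 : ∀ α : Fin 2 →₀ ℕ, 2 ≤ α 0 + α 1 → F α = 0) :
    ∑ α ∈ p.support, F α = F 0 + F (e 0) + F (e 1) := by
  classical
  have n1 : (0 : Fin 2 →₀ ℕ) ≠ e 0 := by intro h; have := DFunLike.congr_fun h 0; simp [e] at this
  have n2 : (0 : Fin 2 →₀ ℕ) ≠ e 1 := by intro h; have := DFunLike.congr_fun h 1; simp [e] at this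
  have n3 : e 0 ≠ e 1 := by intro h; have := DFunLike.congr_fun h 0; simp [e] at this
  have s1 : ∑ α ∈ p.support, F α = ∑ α ∈ p.support ∪ {0, e 0, e 1}, F α := by
    apply Finset.sum_subset Finset.subset_union_left
    intro α _ hα
    apply h0
    simpa [MvPolynomial.mem_support_iff] using hα
  have s2 : ∑ α ∈ ({0, e 0, e 1} : Finset (Fin 2 →₀ ℕ)), F α = ∑ α ∈ p.support ∪ {0, e 0, e 1}, F α := by
    apply Finset.sum_subset Finset.subset_union_right
    intro α _ hα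
    apply h2
    simp only [Finset.mem_insert, Finset.mem_singleton, not_or] at hα
    exact alpha_cases α hα.1 hα.2.1 hα.2.2
  rw [s1, ← s2, Finset.sum_insert, Finset.sum_insert, Finset.sum_singleton, add_assoc]
  · simpa using n3
  · simp [n1, n2]

lemma slice_coeff (ζ : Fin 2 → ℂ) (p : P2) : (slice ζ p).coeff 0 = p.coeff 0 ∧
    (slice ζ p).coeff 1 = ζ 0 * p.coeff (e 0) + ζ 1 * p.coeff (e 1) := by
  have h : ∀ n, (slice ζ p).coeff n = ∑ α ∈ p.support, (if n = α 0 + α 1 then p.coeff α * (ζ 0 ^ α 0 * ζ 1 ^ α 1) else 0) := by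
    intro n
    unfold slice
    rw [MvPolynomial.aeval_def, MvPolynomial.eval₂_eq', Polynomial.finsetSum_coeff]
    apply Finset.sum_congr rfl
    intro α _
    exact slice_coeff_term ζ _ α n
  constructor
  · rw [h, sum_three]
    · simp [e]
    · intro α hα; simp [hα]
    · intro α hα; rw [if_neg (by omega)]
  · rw [h, sum_three]
    · simp [e]; ring
    · intro α hα; simp [hα]
    · intro α hα; rw [if_neg (by omega)]

lemma lin_sq (s t : ℂ) : ∑ i ∈ (Polynomial.C s + Polynomial.C t * Polynomial.X).support,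
    ‖(Polynomial.C s + Polynomial.C t * Polynomial.X).coeff i‖ ^ 2 = ‖s‖ ^ 2 + ‖t‖ ^ 2 := by
  have hsub : (Polynomial.C s + Polynomial.C t * Polynomial.X).support ⊆ ({0, 1} : Finset ℕ) := by
    intro i hi
    rw [Polynomial.mem_support_iff] at hi
    by_contra h
    simp only [Finset.mem_insert, Finset.mem_singleton, not_or] at h
    apply hi
    rw [Polynomial.coeff_add, Polynomial.coeff_C, if_neg h.1, Polynomial.coeff_C_mul, Polynomial.coeff_X,
      if_neg (Ne.symm h.2)]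
    simp
  rw [Finset.sum_subset hsub]
  · rw [Finset.sum_pair (by norm_num)]
    simp
  · intro i _ hi
    have : (Polynomial.C s + Polynomial.C t * Polynomial.X).coeff i = 0 := by
      simpa [Polynomial.mem_support_iff] using hi
    rw [this]; simp

/-- The open unit ball of `ℂ²`. -/
abbrev Bl : Set (EuclideanSpace ℂ (Fin 2)) := Metric.ball 0 1

lemma slice_ineq {m : ℕ} (p : Fin m → P2) (C : ℝ)
    (hC : ∀ z : EuclideanSpace ℂ (Fin 2), ‖z‖ < 1 → ∑ j, ‖MvPolynomial.eval z (p j)‖ ^ 2 ≤ C ^ 2)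
    (ζ : EuclideanSpace ℂ (Fin 2)) (hζ : ‖ζ‖ = 1) (s t : ℂ) :
    ∑ j, (‖(p j).coeff 0 * s‖ ^ 2 + ‖(ζ 0 * (p j).coeff (e 0) + ζ 1 * (p j).coeff (e 1)) * s + (p j).coeff 0 * t‖ ^ 2)
      ≤ C ^ 2 * (‖s‖ ^ 2 + ‖t‖ ^ 2) := by
  have hr : ∀ r : ℝ, 0 < r → r < 1 → ∑ j, (‖(p j).coeff 0 * s‖ ^ 2 +
      ‖(r : ℂ) * ((ζ 0 * (p j).coeff (e 0) + ζ 1 * (p j).coeff (e 1)) * s) + (p j).coeff 0 * t‖ ^ 2)
      ≤ C ^ 2 * (‖s‖ ^ 2 + ‖t‖ ^ 2) := by
    intro r hr0 hr1
    have h := parseval_ineq (fun j => (slice ζ (p j)).comp (Polynomial.C (r : ℂ) * Polynomial.X)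
      * (Polynomial.C s + Polynomial.C t * Polynomial.X)) (Polynomial.C s + Polynomial.C t * Polynomial.X) C (by
        intro z hz
        simp only [Polynomial.eval_mul, Polynomial.eval_comp, Polynomial.eval_C, Polynomial.eval_X, norm_mul,
          mul_pow, slice_eval]
        rw [← Finset.sum_mul]
        apply mul_le_mul_of_nonneg_right _ (by positivity)
        have hn : ‖((r : ℂ) * z) • ζ‖ < 1 := by
          rw [norm_smul, hζ, norm_mul, hz, Complex.norm_real, Real.norm_eq_abs, abs_of_pos hr0]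
          linarith
        have := hC _ hn
        refine le_trans (le_of_eq ?_) this
        apply Finset.sum_congr rfl; intro j _
        congr 4
        funext i
        simp [mul_comm])
    rw [lin_sq] at h
    refine le_trans (le_of_eq ?_) h
    apply Finset.sum_congr rfl; intro j _
    have hcomp : ∀ n, ((slice ζ (p j)).comp (Polynomial.C (r : ℂ) * Polynomial.X)).coeff n
        = (slice ζ (p j)).coeff n * (r : ℂ) ^ n := by
      intro n; rw [Polynomial.comp_C_mul_X_coeff]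
    have hc := slice_coeff ζ (p j)
    have h0 : ((slice ζ (p j)).comp (Polynomial.C (r : ℂ) * Polynomial.X)
      * (Polynomial.C s + Polynomial.C t * Polynomial.X)).coeff 0 = (p j).coeff 0 * s := by
      rw [Polynomial.mul_coeff_zero, hcomp, hc.1]; simp
    have h1 : ((slice ζ (p j)).comp (Polynomial.C (r : ℂ) * Polynomial.X)
      * (Polynomial.C s + Polynomial.C t * Polynomial.X)).coeff 1
        = (r : ℂ) * ((ζ 0 * (p j).coeff (e 0) + ζ 1 * (p j).coeff (e 1)) * s) + (p j).coeff 0 * t := by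
      rw [Polynomial.coeff_mul, Finset.Nat.sum_antidiagonal_eq_sum_range_succ_mk]
      rw [Finset.sum_range_succ, Finset.sum_range_one, hcomp, hcomp, hc.1, hc.2]
      simp
      ring
    rw [h0, h1]
  have hlim : Tendsto (fun r : ℝ => ∑ j, (‖(p j).coeff 0 * s‖ ^ 2 +
      ‖(r : ℂ) * ((ζ 0 * (p j).coeff (e 0) + ζ 1 * (p j).coeff (e 1)) * s) + (p j).coeff 0 * t‖ ^ 2)) (𝓝[<] 1)
      (𝓝 (∑ j, (‖(p j).coeff 0 * s‖ ^ 2 +
      ‖((1 : ℝ) : ℂ) * ((ζ 0 * (p j).coeff (e 0) + ζ 1 * (p j).coeff (e 1)) * s) + (p j).coeff 0 * t‖ ^ 2))) := by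
    apply tendsto_nhdsWithin_of_tendsto_nhds
    apply Continuous.tendsto
    fun_prop
  have := le_of_tendsto hlim (by
    have : Set.Ioo (0 : ℝ) 1 ∈ 𝓝[<] (1 : ℝ) := Ioo_mem_nhdsLT (by norm_num)
    filter_upwards [this] with r hr'
    exact hr r hr'.1 hr'.2)
  simpa using this

/-- The Hilbert space `ℂ³`. -/
abbrev E3 := EuclideanSpace ℂ (Fin 3)

noncomputable def b (i : Fin 3) : E3 := EuclideanSpace.single i 1

/-- The operators `T_i v = v_0 e_i` on `ℂ³`. -/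
noncomputable def T (i : Fin 2) : E3 →L[ℂ] E3 := (innerSL ℂ (b 0)).smulRight (b i.succ)

lemma T_apply (i : Fin 2) (v : E3) : T i v = v 0 • b i.succ := by
  unfold T
  simp [b, EuclideanSpace.inner_single_left]

lemma T_mul (i j : Fin 2) : T i * T j = 0 := by
  ext v k
  rw [mul_apply_eq_comp, T_apply, T_apply]
  simp [b, (Fin.succ_ne_zero j).symm]

lemma eval_T (p : P2) : evalTuple T p = p.coeff 0 • 1 + p.coeff (e 0) • T 0 + p.coeff (e 1) • T 1 := by
  unfold evalTuple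
  rw [sum_three]
  · simp [e, List.ofFn_succ]
  · intro α hα; simp [hα]
  · intro α hα
    have : (List.ofFn fun i => T i ^ α i).prod = 0 := by
      simp only [List.ofFn_succ, List.ofFn_zero, List.prod_cons, List.prod_nil, mul_one, Fin.succ_zero_eq_one]
      rcases Nat.lt_or_ge (α 0) 2 with h | h
      · rcases Nat.lt_or_ge (α 1) 2 with h' | h'
        · have e0 : α 0 = 1 := by omega
          have e1 : α 1 = 1 := by omega
          rw [e0, e1, pow_one, pow_one]; exact T_mul 0 1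
        · obtain ⟨k, hk⟩ : ∃ k, α 1 = k + 2 := ⟨α 1 - 2, by omega⟩
          rw [hk, pow_add, pow_two, T_mul, mul_zero, mul_zero]
      · obtain ⟨k, hk⟩ : ∃ k, α 0 = k + 2 := ⟨α 0 - 2, by omega⟩
        rw [hk, pow_add, pow_two, T_mul, mul_zero, zero_mul]
    rw [this, smul_zero]

lemma eval_T_apply (p : P2) (v : E3) : evalTuple T p v = p.coeff 0 • v + (p.coeff (e 0) * v 0) • b 1
    + (p.coeff (e 1) * v 0) • b 2 := by
  rw [eval_T]
  simp only [add_apply, smul_apply, T_apply, one_apply_eq_self, smul_smul]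
  rfl

lemma polar (a c : ℂ) : ∃ (ζ : EuclideanSpace ℂ (Fin 2)) (s : ℝ), ‖ζ‖ = 1 ∧ a = ζ 0 * s ∧ c = ζ 1 * s ∧
    s ^ 2 = ‖a‖ ^ 2 + ‖c‖ ^ 2 := by
  set w : EuclideanSpace ℂ (Fin 2) := WithLp.toLp 2 ![a, c] with hw
  have hw2 : ‖w‖ ^ 2 = ‖a‖ ^ 2 + ‖c‖ ^ 2 := by
    rw [EuclideanSpace.norm_sq_eq]; simp [hw, Fin.sum_univ_two]
  by_cases h0 : w = 0
  · refine ⟨EuclideanSpace.single 0 1, 0, by simp, ?_, ?_, ?_⟩
    · have := congrArg (fun v : EuclideanSpace ℂ (Fin 2) => v 0) h0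
      simpa [hw] using this
    · have := congrArg (fun v : EuclideanSpace ℂ (Fin 2) => v 1) h0
      simpa [hw] using this
    · rw [← hw2, h0]; simp
  · have hn : ‖w‖ ≠ 0 := norm_ne_zero_iff.mpr h0
    refine ⟨((‖w‖ : ℂ)⁻¹) • w, ‖w‖, ?_, ?_, ?_, hw2⟩
    · rw [norm_smul, norm_inv, Complex.norm_real, norm_norm, inv_mul_cancel₀ hn]
    · have hn' : (‖w‖ : ℂ) ≠ 0 := by exact_mod_cast hn
      simp only [PiLp.smul_apply, smul_eq_mul]
      have : w 0 = a := by simp [hw]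
      rw [this]; field_simp
    · have hn' : (‖w‖ : ℂ) ≠ 0 := by exact_mod_cast hn
      simp only [PiLp.smul_apply, smul_eq_mul]
      have : w 1 = c := by simp [hw]
      rw [this]; field_simp

lemma real_aux (Y D V : ℝ) (hY : 0 ≤ Y) (hD : 0 ≤ D) (hV : 0 ≤ V) (h : Y ^ 2 ≤ (D * Y) * V) : Y ≤ D * V := by
  rcases eq_or_lt_of_le hY with h6 | h6
  · rw [← h6]; positivity
  · have : Y * Y ≤ Y * (D * V) := by nlinarith
    exact le_of_mul_le_mul_left this h6

lemma row_T {m : ℕ} (p : Fin m → P2) (C : ℝ)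
    (hC : ∀ z : EuclideanSpace ℂ (Fin 2), ‖z‖ < 1 → ∑ j, ‖MvPolynomial.eval z (p j)‖ ^ 2 ≤ C ^ 2)
    (v : Fin m → E3) : ‖∑ j, evalTuple T (p j) (v j)‖ ^ 2 ≤ C ^ 2 * ∑ j, ‖v j‖ ^ 2 := by
  set y : E3 := ∑ j, evalTuple T (p j) (v j) with hy
  obtain ⟨ζ, s, hζ, h1, h2, hs⟩ := polar (conj (y 1)) (conj (y 2))
  have hsl := slice_ineq p C hC ζ hζ (s : ℂ) (conj (y 0))
  have hyn : ‖y‖ ^ 2 = ‖y 0‖ ^ 2 + ‖y 1‖ ^ 2 + ‖y 2‖ ^ 2 := by
    rw [EuclideanSpace.norm_sq_eq, Fin.sum_univ_three]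
  have hrhs : ‖(s : ℂ)‖ ^ 2 + ‖conj (y 0)‖ ^ 2 = ‖y‖ ^ 2 := by
    rw [Complex.norm_real, Real.norm_eq_abs, sq_abs, hs, hyn]
    simp only [RCLike.norm_conj]; ring
  rw [hrhs] at hsl
  -- the coefficients
  let G : Fin m → Fin 3 → ℂ := fun j => ![(ζ 0 * (p j).coeff (e 0) + ζ 1 * (p j).coeff (e 1)) * s
    + (p j).coeff 0 * conj (y 0), (p j).coeff 0 * conj (y 1), (p j).coeff 0 * conj (y 2)]
  have hG : ∑ j, ∑ k, ‖G j k‖ ^ 2 ≤ C ^ 2 * ‖y‖ ^ 2 := by
    refine le_trans (le_of_eq ?_) hsl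
    apply Finset.sum_congr rfl; intro j _
    rw [Fin.sum_univ_three]
    simp only [G, Matrix.cons_val_zero, Matrix.cons_val_one, Matrix.cons_val]
    rw [norm_mul ((p j).coeff 0) (s : ℂ), norm_mul ((p j).coeff 0) (conj (y 1)),
      norm_mul ((p j).coeff 0) (conj (y 2)), mul_pow, mul_pow, mul_pow, RCLike.norm_conj, RCLike.norm_conj]
    have : ‖(s : ℂ)‖ ^ 2 = ‖y 1‖ ^ 2 + ‖y 2‖ ^ 2 := by
      rw [Complex.norm_real, Real.norm_eq_abs, sq_abs, hs]; simp only [RCLike.norm_conj]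
    rw [this]; ring
  have hin : ∀ j, inner ℂ y (evalTuple T (p j) (v j)) = ∑ k, G j k * v j k := by
    intro j
    rw [eval_T_apply, PiLp.inner_apply, Fin.sum_univ_three, Fin.sum_univ_three]
    have e1 : ζ 0 * (p j).coeff (e 0) * s = (p j).coeff (e 0) * conj (y 1) := by rw [h1]; ring
    have e2 : ζ 1 * (p j).coeff (e 1) * s = (p j).coeff (e 1) * conj (y 2) := by rw [h2]; ring
    simp only [G, Matrix.cons_val_zero, Matrix.cons_val_one, Matrix.cons_val, add_mul, e1, e2]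
    simp [b]
    ring
  have hyy : ‖y‖ ^ 2 ≤ ∑ j, ∑ k, ‖G j k‖ * ‖v j k‖ := by
    have h3 : ((‖y‖ ^ 2 : ℝ) : ℂ) = ∑ j, ∑ k, G j k * v j k := by
      have : inner ℂ y y = ∑ j, inner ℂ y (evalTuple T (p j) (v j)) := by
        conv_lhs => rw [hy]
        rw [inner_sum]
      rw [← Finset.sum_congr rfl (fun j _ => hin j), ← this, inner_self_eq_norm_sq_to_K]
      push_cast; rfl
    have h4 : ‖((‖y‖ ^ 2 : ℝ) : ℂ)‖ = ‖y‖ ^ 2 := by
      rw [Complex.norm_real, Real.norm_eq_abs, abs_of_nonneg (by positivity)]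
    rw [← h4, h3]
    refine (norm_sum_le _ _).trans (Finset.sum_le_sum fun j _ => (norm_sum_le _ _).trans (Finset.sum_le_sum fun k _ => ?_))
    rw [norm_mul]
  have hcs : (∑ j, ∑ k, ‖G j k‖ * ‖v j k‖) ^ 2 ≤ (∑ j, ∑ k, ‖G j k‖ ^ 2) * (∑ j, ∑ k, ‖v j k‖ ^ 2) := by
    rw [← Fintype.sum_prod_type', ← Fintype.sum_prod_type', ← Fintype.sum_prod_type']
    exact Finset.sum_mul_sq_le_sq_mul_sq _ _ _
  have hv : ∑ j, ∑ k, ‖v j k‖ ^ 2 = ∑ j, ‖v j‖ ^ 2 := by
    apply Finset.sum_congr rfl; intro j _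
    rw [EuclideanSpace.norm_sq_eq]
  rw [hv] at hcs
  have hV0 : 0 ≤ ∑ j, ‖v j‖ ^ 2 := Finset.sum_nonneg fun j _ => by positivity
  have h5 : (‖y‖ ^ 2) ^ 2 ≤ (C ^ 2 * ‖y‖ ^ 2) * ∑ j, ‖v j‖ ^ 2 := by
    calc (‖y‖ ^ 2) ^ 2 ≤ (∑ j, ∑ k, ‖G j k‖ * ‖v j k‖) ^ 2 := pow_le_pow_left₀ (by positivity) hyy 2
      _ ≤ _ := hcs
      _ ≤ _ := mul_le_mul_of_nonneg_right hG hV0
  exact real_aux _ _ _ (by positivity) (by positivity) hV0 h5

/-! ### the reproducing kernel Hilbert space -/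

noncomputable abbrev H0 := lp (fun _ : ℕ × ℕ => ℂ) 2

noncomputable def wt (p : ℕ × ℕ) : ℝ := Real.sqrt (((p.1 + p.2 + 1).factorial : ℝ) / ((p.1.factorial : ℝ) * (p.2.factorial : ℝ)))

lemma wt_sq (p : ℕ × ℕ) : wt p ^ 2 = ((p.1 + p.2 + 1).factorial : ℝ) / ((p.1.factorial : ℝ) * (p.2.factorial : ℝ)) := by
  unfold wt; rw [Real.sq_sqrt (by positivity)]

lemma wt_summable (t u : ℝ) (ht : 0 ≤ t) (hu : 0 ≤ u) (h : t + u < 1) :
    Summable (fun p : ℕ × ℕ => wt p ^ 2 * (t ^ p.1 * u ^ p.2)) := by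
  rw [← (Finset.HasAntidiagonal.sigmaAntidiagonalEquivProd (A := ℕ)).summable_iff]
  rw [summable_sigma_of_nonneg]
  · refine ⟨fun n => Summable.of_finite, ?_⟩
    have hsum : ∀ n : ℕ, (∑' x : Finset.HasAntidiagonal.antidiagonal n, ((fun p : ℕ × ℕ => wt p ^ 2 * (t ^ p.1 * u ^ p.2)) ∘
        (Finset.HasAntidiagonal.sigmaAntidiagonalEquivProd (A := ℕ))) ⟨n, x⟩) = ((n : ℝ) + 1) * (t + u) ^ n := by
      intro n
      rw [tsum_fintype]
      simp only [Function.comp, Finset.HasAntidiagonal.sigmaAntidiagonalEquivProd_apply]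
      rw [Finset.sum_coe_sort (Finset.HasAntidiagonal.antidiagonal n) (fun p => wt p ^ 2 * (t ^ p.1 * u ^ p.2)),
        (Commute.all t u).add_pow', Finset.mul_sum]
      apply Finset.sum_congr rfl
      intro p hp
      rw [Finset.HasAntidiagonal.mem_antidiagonal] at hp
      rw [wt_sq, hp, nsmul_eq_mul, ← mul_assoc ((n : ℝ) + 1)]
      congr 1
      have h1 := Nat.choose_mul_factorial_mul_factorial (n := n) (k := p.1) (by omega)
      rw [show n - p.1 = p.2 by omega] at h1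
      have h2 : ((n.choose p.1 : ℕ) : ℝ) * p.1.factorial * p.2.factorial = n.factorial := by exact_mod_cast h1
      rw [div_eq_iff (by positivity), Nat.factorial_succ]
      push_cast
      rw [← h2]; ring
    simp_rw [hsum]
    have hr : ‖t + u‖ < 1 := by rw [Real.norm_eq_abs, abs_of_nonneg (by positivity)]; exact h
    have h1 := summable_pow_mul_geometric_of_norm_lt_one 1 hr
    have h2 := summable_geometric_of_norm_lt_one hr
    refine (h1.add h2).congr fun n => ?_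
    ring
  · intro x
    simp only [Function.comp]
    positivity

/-- The monomial `z^α`. -/
noncomputable def mon (z : EuclideanSpace ℂ (Fin 2)) (p : ℕ × ℕ) : ℂ := z 0 ^ p.1 * z 1 ^ p.2

lemma mon_summable (z : EuclideanSpace ℂ (Fin 2)) (hz : ‖z‖ < 1) :
    Summable (fun p : ℕ × ℕ => ‖conj ((wt p : ℂ) * mon z p)‖ ^ (2 : ℝ)) := by
  have h1 : ‖z 0‖ ^ 2 + ‖z 1‖ ^ 2 < 1 := by
    have := EuclideanSpace.norm_sq_eq z
    rw [Fin.sum_univ_two] at this
    rw [← this]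
    have := norm_nonneg z
    nlinarith
  refine (wt_summable _ _ (by positivity) (by positivity) h1).congr fun p => ?_
  rw [RCLike.norm_conj, norm_mul, Complex.norm_real, Real.norm_eq_abs, mon, norm_mul, norm_pow, norm_pow]
  rw [Real.rpow_two, mul_pow, sq_abs, mul_pow, ← pow_mul, ← pow_mul, ← pow_mul, ← pow_mul, mul_comm 2, mul_comm 2]

/-- The kernel function at `z`, as a coefficient sequence. -/
noncomputable def kz (z : EuclideanSpace ℂ (Fin 2)) (hz : ‖z‖ < 1) : H0 :=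
  ⟨fun p => conj ((wt p : ℂ) * mon z p), by
    apply memℓp_gen
    simpa using mon_summable z hz⟩

lemma kz_apply (z : EuclideanSpace ℂ (Fin 2)) (hz : ‖z‖ < 1) (p : ℕ × ℕ) :
    kz z hz p = conj ((wt p : ℂ) * mon z p) := rfl

lemma inner_kz (z : EuclideanSpace ℂ (Fin 2)) (hz : ‖z‖ < 1) (f : H0) :
    HasSum (fun p => (wt p : ℂ) * mon z p * f p) (inner ℂ (kz z hz) f) := by
  have := lp.hasSum_inner (𝕜 := ℂ) (kz z hz) f
  have h2 : (fun p => (wt p : ℂ) * mon z p * f p) = (fun p => inner ℂ (kz z hz p) (f p)) := by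
    funext p
    rw [kz_apply]
    simp [mul_comm]
  rw [h2]; exact this

/-- Multiplication by `z_1` on coefficient sequences. -/
noncomputable def sh1 (f : ℕ × ℕ → ℂ) (p : ℕ × ℕ) : ℂ :=
  if p.1 = 0 then 0 else (Real.sqrt (p.1 / (p.1 + p.2 + 1)) : ℂ) * f (p.1 - 1, p.2)

/-- Multiplication by `z_2` on coefficient sequences. -/
noncomputable def sh2 (f : ℕ × ℕ → ℂ) (p : ℕ × ℕ) : ℂ :=
  if p.2 = 0 then 0 else (Real.sqrt (p.2 / (p.1 + p.2 + 1)) : ℂ) * f (p.1, p.2 - 1)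

lemma inj1 : Function.Injective (fun p : ℕ × ℕ => (p.1 + 1, p.2)) := by
  intro p q h; simp only [Prod.mk.injEq, add_left_inj] at h; exact Prod.ext h.1 h.2

lemma inj2 : Function.Injective (fun p : ℕ × ℕ => (p.1, p.2 + 1)) := by
  intro p q h; simp only [Prod.mk.injEq, add_left_inj] at h; exact Prod.ext h.1 h.2

lemma sh1_zero (f : ℕ × ℕ → ℂ) (p : ℕ × ℕ) (hp : p ∉ Set.range (fun p : ℕ × ℕ => (p.1 + 1, p.2))) : sh1 f p = 0 := by
  unfold sh1
  rw [if_pos]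
  by_contra h
  exact hp ⟨(p.1 - 1, p.2), by ext <;> simp; omega⟩

lemma sh2_zero (f : ℕ × ℕ → ℂ) (p : ℕ × ℕ) (hp : p ∉ Set.range (fun p : ℕ × ℕ => (p.1, p.2 + 1))) : sh2 f p = 0 := by
  unfold sh2
  rw [if_pos]
  by_contra h
  exact hp ⟨(p.1, p.2 - 1), by ext <;> simp; omega⟩

lemma sh1_succ (f : ℕ × ℕ → ℂ) (p : ℕ × ℕ) : sh1 f (p.1 + 1, p.2) = (Real.sqrt ((p.1 + 1) / (p.1 + p.2 + 2)) : ℂ) * f p := by
  unfold sh1
  rw [if_neg (by simp)]
  simp only [Nat.add_sub_cancel, Prod.mk.eta]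
  have h : (((p.1 + 1 : ℕ) : ℝ) / (((p.1 + 1 : ℕ) : ℝ) + p.2 + 1)) = (p.1 + 1) / (p.1 + p.2 + 2) := by
    push_cast; congr 1; ring
  rw [h]

lemma sh2_succ (f : ℕ × ℕ → ℂ) (p : ℕ × ℕ) : sh2 f (p.1, p.2 + 1) = (Real.sqrt ((p.2 + 1) / (p.1 + p.2 + 2)) : ℂ) * f p := by
  unfold sh2
  rw [if_neg (by simp)]
  simp only [Nat.add_sub_cancel, Prod.mk.eta]
  have h : (((p.2 + 1 : ℕ) : ℝ) / ((p.1 : ℝ) + ((p.2 + 1 : ℕ) : ℝ) + 1)) = (p.2 + 1) / (p.1 + p.2 + 2) := by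
    push_cast; congr 1; ring
  rw [h]

lemma sh1_hasSum (f : ℕ × ℕ → ℂ) (a : ℝ) :
    HasSum (fun p => ‖sh1 f p‖ ^ 2) a ↔ HasSum (fun p : ℕ × ℕ => ((p.1 + 1 : ℝ) / (p.1 + p.2 + 2)) * ‖f p‖ ^ 2) a := by
  rw [← inj1.hasSum_iff (by intro p hp; rw [sh1_zero f p hp]; simp)]
  have : ((fun p => ‖sh1 f p‖ ^ 2) ∘ fun p : ℕ × ℕ => (p.1 + 1, p.2)) =
      (fun p : ℕ × ℕ => ((p.1 + 1 : ℝ) / (p.1 + p.2 + 2)) * ‖f p‖ ^ 2) := by
    funext p
    simp only [Function.comp, sh1_succ, norm_mul, mul_pow]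
    rw [Complex.norm_real, Real.norm_eq_abs, sq_abs, Real.sq_sqrt (by positivity)]
  rw [this]

lemma sh2_hasSum (f : ℕ × ℕ → ℂ) (a : ℝ) :
    HasSum (fun p => ‖sh2 f p‖ ^ 2) a ↔ HasSum (fun p : ℕ × ℕ => ((p.2 + 1 : ℝ) / (p.1 + p.2 + 2)) * ‖f p‖ ^ 2) a := by
  rw [← inj2.hasSum_iff (by intro p hp; rw [sh2_zero f p hp]; simp)]
  have : ((fun p => ‖sh2 f p‖ ^ 2) ∘ fun p : ℕ × ℕ => (p.1, p.2 + 1)) =
      (fun p : ℕ × ℕ => ((p.2 + 1 : ℝ) / (p.1 + p.2 + 2)) * ‖f p‖ ^ 2) := by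
    funext p
    simp only [Function.comp, sh2_succ, norm_mul, mul_pow]
    rw [Complex.norm_real, Real.norm_eq_abs, sq_abs, Real.sq_sqrt (by positivity)]
  rw [this]

lemma norm_hasSum (f : H0) : HasSum (fun p => ‖f p‖ ^ 2) (‖f‖ ^ 2) := by
  have := lp.hasSum_norm (p := 2) (by norm_num) f
  simpa using this

lemma sh1_summable (f : H0) : Summable (fun p => ‖sh1 f p‖ ^ 2) := by
  have h : Summable (fun p : ℕ × ℕ => ((p.1 + 1 : ℝ) / (p.1 + p.2 + 2)) * ‖f p‖ ^ 2) := by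
    refine Summable.of_nonneg_of_le (fun p => by positivity) (fun p => ?_) (norm_hasSum f).summable
    have : ((p.1 + 1 : ℝ) / (p.1 + p.2 + 2)) ≤ 1 := by
      rw [div_le_one (by positivity)]; have : (0:ℝ) ≤ p.2 := by positivity
      linarith
    exact mul_le_of_le_one_left (by positivity) this
  exact ((sh1_hasSum f _).mpr h.hasSum).summable

lemma sh2_summable (f : H0) : Summable (fun p => ‖sh2 f p‖ ^ 2) := by
  have h : Summable (fun p : ℕ × ℕ => ((p.2 + 1 : ℝ) / (p.1 + p.2 + 2)) * ‖f p‖ ^ 2) := by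
    refine Summable.of_nonneg_of_le (fun p => by positivity) (fun p => ?_) (norm_hasSum f).summable
    have : ((p.2 + 1 : ℝ) / (p.1 + p.2 + 2)) ≤ 1 := by
      rw [div_le_one (by positivity)]; have : (0:ℝ) ≤ p.1 := by positivity
      linarith
    exact mul_le_of_le_one_left (by positivity) this
  exact ((sh2_hasSum f _).mpr h.hasSum).summable

noncomputable def S1 (f : H0) : H0 := ⟨sh1 f, by
  apply memℓp_gen
  simpa using sh1_summable f⟩

noncomputable def S2 (f : H0) : H0 := ⟨sh2 f, by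
  apply memℓp_gen
  simpa using sh2_summable f⟩

lemma S_norm (f : H0) : ‖S1 f‖ ^ 2 + ‖S2 f‖ ^ 2 = ‖f‖ ^ 2 := by
  have h1 := (sh1_hasSum f _).mp (norm_hasSum (S1 f))
  have h2 := (sh2_hasSum f _).mp (norm_hasSum (S2 f))
  have h3 := h1.add h2
  have h4 : (fun p : ℕ × ℕ => ((p.1 + 1 : ℝ) / (p.1 + p.2 + 2)) * ‖f p‖ ^ 2 + ((p.2 + 1 : ℝ) / (p.1 + p.2 + 2)) * ‖f p‖ ^ 2)
      = fun p => ‖f p‖ ^ 2 := by
    funext p
    have : (p.1 + p.2 + 2 : ℝ) ≠ 0 := by positivity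
    field_simp
    ring
  rw [h4] at h3
  exact h3.unique (norm_hasSum f)

lemma wt_succ1 (p : ℕ × ℕ) : wt (p.1 + 1, p.2) * Real.sqrt ((p.1 + 1) / (p.1 + p.2 + 2)) = wt p := by
  unfold wt
  rw [← Real.sqrt_mul (by positivity)]
  congr 1
  simp only
  rw [show p.1 + 1 + p.2 + 1 = (p.1 + p.2 + 1) + 1 by ring, Nat.factorial_succ (p.1 + p.2 + 1), Nat.factorial_succ p.1]
  have : (p.1 + p.2 + 2 : ℝ) ≠ 0 := by positivity
  push_cast
  field_simp
  ring

lemma wt_succ2 (p : ℕ × ℕ) : wt (p.1, p.2 + 1) * Real.sqrt ((p.2 + 1) / (p.1 + p.2 + 2)) = wt p := by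
  unfold wt
  rw [← Real.sqrt_mul (by positivity)]
  congr 1
  simp only
  rw [show p.1 + (p.2 + 1) + 1 = (p.1 + p.2 + 1) + 1 by ring, Nat.factorial_succ (p.1 + p.2 + 1), Nat.factorial_succ p.2]
  have : (p.1 + p.2 + 2 : ℝ) ≠ 0 := by positivity
  push_cast
  field_simp
  ring

lemma inner_S1 (z : EuclideanSpace ℂ (Fin 2)) (hz : ‖z‖ < 1) (f : H0) :
    inner ℂ (kz z hz) (S1 f) = z 0 * inner ℂ (kz z hz) f := by
  have h1 := inner_kz z hz (S1 f)
  have h2 := (inner_kz z hz f).mul_left (z 0)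
  rw [← inj1.hasSum_iff] at h1
  · have : (fun p => z 0 * ((wt p : ℂ) * mon z p * f p)) =
      ((fun p => (wt p : ℂ) * mon z p * (S1 f) p) ∘ fun p : ℕ × ℕ => (p.1 + 1, p.2)) := by
      funext p
      show _ = (wt (p.1 + 1, p.2) : ℂ) * mon z (p.1 + 1, p.2) * (S1 f) (p.1 + 1, p.2)
      have h3 : (S1 f) (p.1 + 1, p.2) = (Real.sqrt ((p.1 + 1) / (p.1 + p.2 + 2)) : ℂ) * f p := sh1_succ f p
      rw [h3, ← wt_succ1 p, mon, mon]
      push_cast
      ring
    rw [this] at h2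
    exact h1.unique h2
  · intro p hp
    have : (S1 f) p = 0 := sh1_zero f p hp
    rw [this, mul_zero]

lemma inner_S2 (z : EuclideanSpace ℂ (Fin 2)) (hz : ‖z‖ < 1) (f : H0) :
    inner ℂ (kz z hz) (S2 f) = z 1 * inner ℂ (kz z hz) f := by
  have h1 := inner_kz z hz (S2 f)
  have h2 := (inner_kz z hz f).mul_left (z 1)
  rw [← inj2.hasSum_iff] at h1
  · have : (fun p => z 1 * ((wt p : ℂ) * mon z p * f p)) =
      ((fun p => (wt p : ℂ) * mon z p * (S2 f) p) ∘ fun p : ℕ × ℕ => (p.1, p.2 + 1)) := by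
      funext p
      show _ = (wt (p.1, p.2 + 1) : ℂ) * mon z (p.1, p.2 + 1) * (S2 f) (p.1, p.2 + 1)
      have h3 : (S2 f) (p.1, p.2 + 1) = (Real.sqrt ((p.2 + 1) / (p.1 + p.2 + 2)) : ℂ) * f p := sh2_succ f p
      rw [h3, ← wt_succ2 p, mon, mon]
      push_cast
      ring
    rw [this] at h2
    exact h1.unique h2
  · intro p hp
    have : (S2 f) p = 0 := sh2_zero f p hp
    rw [this, mul_zero]


/-- The kernel function at a point of the ball. -/
noncomputable def kb (z : Bl) : H0 := kz z.1 (mem_ball_zero_iff.mp z.2)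

/-- The reproducing kernel Hilbert space: the closed span of the kernel functions. -/
noncomputable def KK : Submodule ℂ H0 := (Submodule.span ℂ (Set.range kb)).topologicalClosure

lemma kb_mem (z : Bl) : kb z ∈ KK :=
  Submodule.le_topologicalClosure _ (Submodule.subset_span ⟨z, rfl⟩)

noncomputable instance : CompleteSpace KK := by
  unfold KK; infer_instance

lemma KK_inj (f : KK) (h : ∀ z : Bl, inner ℂ (kb z) (f : H0) = 0) : f = 0 := by
  have h1 : (f : H0) ∈ (Submodule.span ℂ (Set.range kb))ᗮ := by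
    rw [Submodule.mem_orthogonal]
    intro u hu
    induction hu using Submodule.span_induction with
    | mem x hx => obtain ⟨z, rfl⟩ := hx; exact h z
    | zero => simp
    | add x y _ _ hx hy => rw [inner_add_left, hx, hy, add_zero]
    | smul c x _ hx => rw [inner_smul_left, hx, mul_zero]
  rw [← Submodule.orthogonal_closure] at h1
  have h2 : (f : H0) ∈ (Submodule.span ℂ (Set.range kb)).topologicalClosure := f.2
  have h3 := (Submodule.mem_orthogonal _ _).mp h1 _ h2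
  have h4 := inner_self_eq_zero.mp h3
  exact Subtype.ext h4

noncomputable instance instRK : RKHS ℂ KK Bl ℂ where
  coeCLM := ContinuousLinearMap.pi fun z => (innerSL ℂ (kb z)) ∘L KK.subtypeL
  coeCLM_injective := by
    intro f g h
    have : f - g = 0 := by
      apply KK_inj
      intro z
      have := congrFun h z
      simp only [ContinuousLinearMap.coe_pi', ContinuousLinearMap.comp_apply, Submodule.subtypeL_apply,
        innerSL_apply_apply] at this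
      rw [AddSubgroupClass.coe_sub, inner_sub_right, this, sub_self]
    exact sub_eq_zero.mp this

lemma coe_eq (f : KK) (z : Bl) : f z = inner ℂ (kb z) (f : H0) := rfl

lemma smul_coe (c : ℂ) (f : KK) (z : Bl) : (c • f) z = c * f z := by
  rw [coe_eq, coe_eq]
  show inner ℂ (kb z) (c • (f : H0)) = _
  rw [inner_smul_right]

/-- The orthogonal projection onto `KK`. -/
noncomputable def pr (h : H0) : KK := KK.orthogonalProjectionOnto h

lemma pr_apply (h : H0) (z : Bl) : (pr h) z = inner ℂ (kb z) h := by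
  rw [coe_eq]
  exact Submodule.inner_orthogonalProjectionOnto_eq_of_mem_left (⟨kb z, kb_mem z⟩ : KK) h

lemma pr_norm (h : H0) : ‖pr h‖ ≤ ‖h‖ := Submodule.norm_orthogonalProjectionOnto_apply_le _ _

lemma pr_S1 (f : KK) (z : Bl) : (pr (S1 f)) z = (z : EuclideanSpace ℂ (Fin 2)) 0 * f z := by
  rw [pr_apply, kb, inner_S1]; rfl

lemma pr_S2 (f : KK) (z : Bl) : (pr (S2 f)) z = (z : EuclideanSpace ℂ (Fin 2)) 1 * f z := by
  rw [pr_apply, kb, inner_S2]; rfl

lemma col (f g1 g2 : KK) (h1 : ∀ z : Bl, g1 z = (z : EuclideanSpace ℂ (Fin 2)) 0 * f z)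
    (h2 : ∀ z : Bl, g2 z = (z : EuclideanSpace ℂ (Fin 2)) 1 * f z) : ‖g1‖ ^ 2 + ‖g2‖ ^ 2 ≤ ‖f‖ ^ 2 := by
  have e1 : g1 = pr (S1 f) := RKHS.ext fun z => by rw [h1, pr_S1]
  have e2 : g2 = pr (S2 f) := RKHS.ext fun z => by rw [h2, pr_S2]
  have n1 : ‖g1‖ ^ 2 ≤ ‖S1 (f : H0)‖ ^ 2 := by rw [e1]; exact pow_le_pow_left₀ (norm_nonneg _) (pr_norm _) 2
  have n2 : ‖g2‖ ^ 2 ≤ ‖S2 (f : H0)‖ ^ 2 := by rw [e2]; exact pow_le_pow_left₀ (norm_nonneg _) (pr_norm _) 2
  have := S_norm (f : H0)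
  have hn : ‖f‖ = ‖(f : H0)‖ := rfl
  rw [hn]; linarith

/-! ### general definitions -/

/-- For a reproducing kernel Hilbert space `H` of functions on `Ω ⊆ ℂ^d`: multiplication by the
`p × m` matrix polynomial `P`, from `H^m` to `H^p`, has operator norm at most `C`. That is, for all
`f = (f_j)` in `H^m` and `g = (g_i)` in `H^p` with `g = P f` pointwise on `Ω`,
`∑ ‖g_i‖² ≤ C² ∑ ‖f_j‖²`. -/
def MultLE {d : ℕ} {Ω : Set (EuclideanSpace ℂ (Fin d))} (H : Type) [NormedAddCommGroup H] [InnerProductSpace ℂ H]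
    [RKHS ℂ H Ω ℂ] {p m : ℕ} (P : Matrix (Fin p) (Fin m) (MvPolynomial (Fin d) ℂ)) (C : ℝ) : Prop :=
  ∀ (f : Fin m → H) (g : Fin p → H),
    (∀ i, ∀ x : Ω, g i x = ∑ j, MvPolynomial.eval (x : EuclideanSpace ℂ (Fin d)) (P i j) * f j x) →
      ∑ i, ‖g i‖ ^ 2 ≤ C ^ 2 * ∑ j, ‖f j‖ ^ 2

/-- The operator `P(T) : E^m → E^p` has norm at most `C`. -/
def OpLE {d : ℕ} {E : Type} [NormedAddCommGroup E] [InnerProductSpace ℂ E]
    (T : Fin d → E →L[ℂ] E) {p m : ℕ} (P : Matrix (Fin p) (Fin m) (MvPolynomial (Fin d) ℂ)) (C : ℝ) : Prop :=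
  ∀ v : Fin m → E, ∑ i, ‖∑ j, evalTuple T (P i j) (v j)‖ ^ 2 ≤ C ^ 2 * ∑ j, ‖v j‖ ^ 2

/-- The inequality `‖P(T)‖ ≤ ‖P‖_Mult` for the matrix polynomial `P`: every `C ≥ 0` that bounds the
multiplication operator by `P` on `H` bounds the operator `P(T)`. -/
def VN {d : ℕ} {Ω : Set (EuclideanSpace ℂ (Fin d))} (H : Type) [NormedAddCommGroup H] [InnerProductSpace ℂ H]
    [RKHS ℂ H Ω ℂ] {E : Type} [NormedAddCommGroup E] [InnerProductSpace ℂ E]
    (T : Fin d → E →L[ℂ] E) {p m : ℕ} (P : Matrix (Fin p) (Fin m) (MvPolynomial (Fin d) ℂ)) : Prop :=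
  ∀ C : ℝ, 0 ≤ C → MultLE H P C → OpLE T P C

lemma mult_all (p : P2) : ∀ f : KK, ∃ g : KK, ∀ x : Bl, g x = MvPolynomial.eval (x : EuclideanSpace ℂ (Fin 2)) p * f x := by
  induction p using MvPolynomial.induction_on with
  | C a => intro f; exact ⟨a • f, fun x => by rw [smul_coe, MvPolynomial.eval_C]⟩
  | add p q hp hq =>
    intro f
    obtain ⟨g, hg⟩ := hp f
    obtain ⟨h, hh⟩ := hq f
    exact ⟨g + h, fun x => by rw [RKHS.coe_add, Pi.add_apply, hg, hh, map_add, add_mul]⟩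
  | mul_X p i hp =>
    intro f
    obtain ⟨f', hf'⟩ : ∃ f' : KK, ∀ x : Bl, f' x = (x : EuclideanSpace ℂ (Fin 2)) i * f x := by
      fin_cases i
      · exact ⟨pr (S1 f), fun x => pr_S1 f x⟩
      · exact ⟨pr (S2 f), fun x => pr_S2 f x⟩
    obtain ⟨g, hg⟩ := hp f'
    exact ⟨g, fun x => by rw [hg, hf', map_mul, MvPolynomial.eval_X, mul_assoc]⟩

lemma sup_bound {m : ℕ} (P : Matrix (Fin 1) (Fin m) P2) (C : ℝ) (hP : MultLE (Ω := Bl) KK P C)
    (z : EuclideanSpace ℂ (Fin 2)) (hz : ‖z‖ < 1) : ∑ j, ‖MvPolynomial.eval z (P 0 j)‖ ^ 2 ≤ C ^ 2 := by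
  set zb : Bl := ⟨z, mem_ball_zero_iff.mpr hz⟩ with hzb
  set k : KK := ⟨kb zb, kb_mem zb⟩ with hk
  have hkn : 0 < ‖k‖ := by
    rw [norm_pos_iff]
    intro h0
    have h1 : kb zb = 0 := congrArg Subtype.val h0
    have h2 : (kb zb) (0, 0) = 0 := by rw [h1]; rfl
    have h3 : (kb zb) (0, 0) = 1 := by
      show conj ((wt (0, 0) : ℂ) * mon z (0, 0)) = 1
      simp [wt, mon]
    rw [h3] at h2
    exact one_ne_zero h2
  choose M hM using fun j => mult_all (P 0 j) (conj (MvPolynomial.eval z (P 0 j)) • k)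
  have h1 := hP (fun j => conj (MvPolynomial.eval z (P 0 j)) • k) (fun _ => ∑ j, M j) (by
    intro i x
    have hi : i = 0 := Subsingleton.elim _ _
    subst hi
    have : (⇑(∑ j, M j) : Bl → ℂ) = ∑ j, ⇑(M j) := map_sum (RKHS.coeCLM ℂ (H := KK)) _ _
    rw [this, Finset.sum_apply]
    exact Finset.sum_congr rfl fun j _ => hM j x)
  rw [Finset.univ_unique, Finset.sum_singleton] at h1
  set S := ∑ j, ‖MvPolynomial.eval z (P 0 j)‖ ^ 2 with hS
  have hS0 : 0 ≤ S := Finset.sum_nonneg fun j _ => by positivity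
  have h2 : ∑ j, ‖conj (MvPolynomial.eval z (P 0 j)) • k‖ ^ 2 = S * ‖k‖ ^ 2 := by
    rw [hS, Finset.sum_mul]
    exact Finset.sum_congr rfl fun j _ => by rw [norm_smul, RCLike.norm_conj, mul_pow]
  rw [h2] at h1
  have h3 : inner ℂ k (∑ j, M j) = ((S * ‖k‖ ^ 2 : ℝ) : ℂ) := by
    rw [inner_sum]
    have : ∀ j, inner ℂ k (M j) = ((‖MvPolynomial.eval z (P 0 j)‖ ^ 2 * ‖k‖ ^ 2 : ℝ) : ℂ) := by
      intro j
      have h4 : inner ℂ k (M j) = (M j) zb := rfl
      rw [h4, hM, smul_coe]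
      have h5 : k zb = ((‖k‖ ^ 2 : ℝ) : ℂ) := by
        have h6 : k zb = inner ℂ (kb zb) (kb zb) := rfl
        have h7 : ‖k‖ = ‖kb zb‖ := rfl
        rw [h6, h7, inner_self_eq_norm_sq_to_K]; push_cast; rfl
      rw [h5, ← mul_assoc, Complex.mul_conj]
      push_cast
      rw [Complex.normSq_eq_norm_sq]
      push_cast; rfl
    rw [Finset.sum_congr rfl fun j _ => this j, ← Complex.ofReal_sum, hS, Finset.sum_mul]
  have h4 : S * ‖k‖ ^ 2 ≤ ‖k‖ * ‖∑ j, M j‖ := by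
    have := norm_inner_le_norm (𝕜 := ℂ) k (∑ j, M j)
    rw [h3, Complex.norm_real, Real.norm_eq_abs, abs_of_nonneg (by positivity)] at this
    exact this
  have h5 : S * ‖k‖ ≤ ‖∑ j, M j‖ := by
    have : ‖k‖ * (S * ‖k‖) ≤ ‖k‖ * ‖∑ j, M j‖ := by nlinarith
    exact le_of_mul_le_mul_left this hkn
  have h6 : (S * ‖k‖) ^ 2 ≤ C ^ 2 * (S * ‖k‖ ^ 2) := le_trans (pow_le_pow_left₀ (by positivity) h5 2) h1
  rcases eq_or_lt_of_le hS0 with h7 | h7
  · rw [← h7]; positivity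
  · have : (S * ‖k‖ ^ 2) * S ≤ (S * ‖k‖ ^ 2) * C ^ 2 := by nlinarith
    exact le_of_mul_le_mul_left this (by positivity)

lemma evalX (i : Fin 2) (v : E3) : evalTuple T (MvPolynomial.X i) v = T i v := by
  rw [eval_T_apply, T_apply]
  fin_cases i
  · simp [MvPolynomial.coeff_X, e, Finsupp.single_left_inj]
  · simp [MvPolynomial.coeff_X, e, Finsupp.single_left_inj]

/-- There are a domain `Ω ⊆ ℂ^d`, a reproducing kernel Hilbert space `H` on `Ω` for which the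
coordinate functions are multipliers, and a commuting tuple `T` of bounded operators on a Hilbert
space that satisfies `‖P(T)‖ ≤ ‖P‖_Mult` for all row polynomials `P` but violates it for some square
matrix polynomial. -/
theorem result : ∃ (d : ℕ) (Ω : Set (EuclideanSpace ℂ (Fin d))) (_ : IsOpen Ω) (_ : IsConnected Ω)
    (H : Type) (_ : NormedAddCommGroup H) (_ : InnerProductSpace ℂ H) (_ : CompleteSpace H) (_ : RKHS ℂ H Ω ℂ),
    (∀ i, ∀ f : H, ∃ g : H, ∀ x : Ω, g x = (x : EuclideanSpace ℂ (Fin d)) i * f x) ∧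
    ∃ (E : Type) (_ : NormedAddCommGroup E) (_ : InnerProductSpace ℂ E) (_ : CompleteSpace E) (T : Fin d → E →L[ℂ] E),
      (∀ i j, T i * T j = T j * T i) ∧
      (∀ (m : ℕ) (P : Matrix (Fin 1) (Fin m) (MvPolynomial (Fin d) ℂ)), VN H T P) ∧
      ∃ (m : ℕ) (P : Matrix (Fin m) (Fin m) (MvPolynomial (Fin d) ℂ)), 1 ≤ m ∧ ¬ VN H T P := by
  refine ⟨2, Bl, Metric.isOpen_ball, ?_, KK, inferInstance, inferInstance, inferInstance, instRK, ?_, E3, inferInstance,
    inferInstance, inferInstance, T, ?_, ?_, 2, !![MvPolynomial.X 0, 0; MvPolynomial.X 1, 0], by norm_num, ?_⟩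
  · exact ⟨⟨0, by simp⟩, (convex_ball _ _).isPreconnected⟩
  · intro i f
    fin_cases i
    · exact ⟨pr (S1 f), fun x => pr_S1 f x⟩
    · exact ⟨pr (S2 f), fun x => pr_S2 f x⟩
  · intro i j; rw [T_mul, T_mul]
  · intro m P C _ hP v
    rw [Finset.univ_unique, Finset.sum_singleton]
    exact row_T (fun j => P default j) C (fun z hz => sup_bound P C hP z hz) v
  · intro h
    have h1 := h 1 zero_le_one (by
      intro f g hg
      rw [Fin.sum_univ_two, Fin.sum_univ_two]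
      have := col (f 0) (g 0) (g 1) (fun z => by rw [hg]; simp [Fin.sum_univ_two]) (fun z => by rw [hg]; simp [Fin.sum_univ_two])
      have h2 : 0 ≤ ‖f 1‖ ^ 2 := by positivity
      linarith) ![b 0, 0]
    simp only [Fin.sum_univ_two] at h1
    simp [evalX, T_apply, b] at h1
    norm_num at h1

end Pool.Agent.Results.MP_59d57e_an.RowInequalityFails
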